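import Pool.Agent.Lib.TU2.GFin

/-!
MP_78b682_nt: for fixed `a` and `c` and every `l ≥ 1` the average over `h` of the `l`-th powers of the logarithmically averaged
four-point correlations of the Liouville function at `0, d a, d h, d h + d c` is at most `1/3 + ε` in absolute value (`k = 0`; for
`l = 2`: the mean square); for the correlations of order `2 ^ (k + 2)` over cubes with `k` further sides, averaged over a box of
sides and over `h`, the same holds with `1 - (2/3) ^ (k + 1) + ε`.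
-/

set_option autoImplicit false

open Finset

namespace Pool.Agent.Results.MP_78b682_nt.CubeAverages

open Pool.Agent.Lib.MP_78b682_nt (liou logAvg)

theorem result (k l d a c : ℕ) (hl : 0 < l) (hd : 0 < d) (ha : 0 < a) (hc : 0 < c) (ε : ℝ) (hε : 0 < ε) :
    ∃ B0 : ℕ, ∀ (B : Fin k → ℕ) (N : ℕ), (∀ i, B0 ≤ B i) → B0 ≤ N → ∃ X0 : ℝ, ∀ X : ℝ, X0 ≤ X →
      |∑ b ∈ Fintype.piFinset (fun i => Icc 1 (B i)), ∑ h ∈ Icc 1 N, (logAvg X (fun n =>
        ∏ S : Finset (Fin k), (liou (n + ∑ i ∈ S, (d : ℤ) * b i) * liou (n + ∑ i ∈ S, (d : ℤ) * b i + d * a) *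
          (liou (n + ∑ i ∈ S, (d : ℤ) * b i + d * h) * liou (n + ∑ i ∈ S, (d : ℤ) * b i + d * h + d * c))))) ^ l| ≤
        (1 - (2 / 3 : ℝ) ^ (k + 1) + ε) * (N * ∏ i, (B i : ℝ)) :=
  Pool.Agent.Lib.TU2.fin3 k l d a c hl hd ha hc ε hε

end Pool.Agent.Results.MP_78b682_nt.CubeAverages
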