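import Mathlib

/-!
MP_78b682_nt: an unconditional lower bound for the logarithmically averaged correlations of the
Liouville function of even order.
-/

open Finset Filter

namespace Pool.Agent.Results.MP_78b682_nt.EvenOrderLowerBound

/-- The Liouville function, equal to `0` at the integers `n ≤ 0`. -/
noncomputable def liou (n : ℤ) : ℝ :=
  if n ≤ 0 then 0 else (-1) ^ (ArithmeticFunction.cardFactors n.toNat)

/-- The logarithmic average of `f n` over `1 ≤ n ≤ X`. -/
noncomputable def logAvg (X : ℝ) (f : ℕ → ℝ) : ℝ :=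
  (∑ n ∈ Icc 1 ⌊X⌋₊, f n / n) / (∑ n ∈ Icc 1 ⌊X⌋₊, (1 : ℝ) / n)

/-- The correlation `C_X(h_1, ..., h_k)`, `H = {h_1, ..., h_k}`. -/
noncomputable def corr (H : Finset ℤ) (X : ℝ) : ℝ :=
  logAvg X (fun n => ∏ h ∈ H, liou ((n : ℤ) + h))

lemma liou_sq {n : ℤ} (hn : 0 < n) : liou n * liou n = 1 := by
  unfold liou
  rw [if_neg (by omega), ← mul_pow]
  simp

lemma liou_two {n : ℤ} (hn : 0 < n) : liou (2 * n) = - liou n := by
  unfold liou
  rw [if_neg (by omega), if_neg (by omega)]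
  have h1 : (2 * n).toNat = 2 * n.toNat := by omega
  have h2 : n.toNat ≠ 0 := by omega
  rw [h1, ArithmeticFunction.cardFactors_mul (by norm_num) h2,
    ArithmeticFunction.cardFactors_apply_prime Nat.prime_two, pow_add, pow_one]
  ring

lemma liou_cases {n : ℤ} (hn : 0 < n) : liou n = 1 ∨ liou n = -1 :=
  mul_self_eq_one_iff.1 (liou_sq hn)

/-- The product of the values. -/
noncomputable def F (H : Finset ℤ) (n : ℤ) : ℝ := ∏ h ∈ H, liou (n + h)

lemma F_sq (H : Finset ℤ) (n : ℤ) (hn : ∀ h ∈ H, 0 < n + h) : F H n * F H n = 1 := by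
  unfold F
  rw [← prod_mul_distrib]
  exact prod_eq_one fun h hh => liou_sq (hn h hh)

lemma F_cases (H : Finset ℤ) (n : ℤ) (hn : ∀ h ∈ H, 0 < n + h) : F H n = 1 ∨ F H n = -1 :=
  mul_self_eq_one_iff.1 (F_sq H n hn)

/-- The key identity. -/
lemma key (H : Finset ℤ) (hk : Even H.card) (n : ℤ) (hn : ∀ h ∈ H, 0 < n + h) :
    F H n * ∏ h ∈ H, F H (2 * n + h) = 1 := by
  have h1 : ∏ h ∈ H, F H (2 * n + h) = ∏ p ∈ H ×ˢ H, liou (2 * n + p.1 + p.2) := by
    unfold F
    rw [prod_product]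
  have h2 : ∏ p ∈ H ×ˢ H, liou (2 * n + p.1 + p.2) =
      (∏ p ∈ (H ×ˢ H).filter (fun p => p.1 = p.2), liou (2 * n + p.1 + p.2)) *
      ∏ p ∈ (H ×ˢ H).filter (fun p => ¬ p.1 = p.2), liou (2 * n + p.1 + p.2) :=
    (prod_filter_mul_prod_filter_not _ _ _).symm
  have h3 : ∏ p ∈ (H ×ˢ H).filter (fun p => ¬ p.1 = p.2), liou (2 * n + p.1 + p.2) = 1 := by
    refine prod_involution (fun p _ => (p.2, p.1)) ?_ ?_ ?_ ?_
    · intro p hp
      simp only [mem_filter, mem_product] at hp
      have e : 2 * n + p.2 + p.1 = 2 * n + p.1 + p.2 := by ring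
      show liou (2 * n + p.1 + p.2) * liou (2 * n + p.2 + p.1) = 1
      rw [e]
      apply liou_sq
      have := hn _ hp.1.1
      have := hn _ hp.1.2
      omega
    · intro p hp _ hpe
      simp only [mem_filter, mem_product] at hp
      exact hp.2 (congrArg Prod.snd hpe)
    · intro p hp
      simp only [mem_filter, mem_product] at hp ⊢
      exact ⟨⟨hp.1.2, hp.1.1⟩, fun h => hp.2 h.symm⟩
    · intro p hp
      rfl
  have h4 : ∏ p ∈ (H ×ˢ H).filter (fun p => p.1 = p.2), liou (2 * n + p.1 + p.2) =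
      ∏ h ∈ H, liou (2 * n + h + h) := by
    symm
    refine prod_bij (fun h _ => (h, h)) ?_ ?_ ?_ ?_
    · intro h hh
      simp [hh]
    · intro a _ b _ hab
      exact congrArg Prod.fst hab
    · intro p hp
      simp only [mem_filter, mem_product] at hp
      exact ⟨p.1, hp.1.1, Prod.ext rfl hp.2⟩
    · intro h hh
      rfl
  have h5 : ∏ h ∈ H, liou (2 * n + h + h) = F H n := by
    have : ∀ h ∈ H, liou (2 * n + h + h) = (-1) * liou (n + h) := by
      intro h hh
      have e : 2 * n + h + h = 2 * (n + h) := by ring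
      rw [e, liou_two (hn h hh)]
      ring
    rw [prod_congr rfl this, prod_mul_distrib, prod_const, hk.neg_one_pow, one_mul]
    rfl
  rw [h1, h2, h3, h4, h5, mul_one]
  exact F_sq H n hn

/-- Indicator of `F = 1`. -/
noncomputable def u (H : Finset ℤ) (n : ℕ) : ℝ := if F H n = 1 then 1 else 0

lemma u_nonneg (H : Finset ℤ) (n : ℕ) : 0 ≤ u H n := by
  unfold u; split_ifs <;> norm_num

lemma u_le_one (H : Finset ℤ) (n : ℕ) : u H n ≤ 1 := by
  unfold u; split_ifs <;> norm_num

/-- the covering inequality -/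
lemma cover (H : Finset ℤ) (hk : Even H.card) (n : ℕ) (hn : ∀ h ∈ H, 0 < (n : ℤ) + h) :
    1 ≤ u H n + ∑ h ∈ H, u H (2 * (n : ℤ) + h).toNat := by
  by_contra hcon
  rw [not_le] at hcon
  have hs : 0 ≤ ∑ h ∈ H, u H (2 * (n : ℤ) + h).toNat := sum_nonneg fun h _ => u_nonneg H _
  have h1 : F H n = -1 := by
    rcases F_cases H n hn with h | h
    · exfalso
      have : u H n = 1 := by unfold u; rw [if_pos h]
      linarith
    · exact h
  have h2 : ∀ h ∈ H, F H (2 * (n : ℤ) + h) = -1 := by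
    intro h hh
    have hpos : ∀ h' ∈ H, 0 < 2 * (n : ℤ) + h + h' := by
      intro h' hh'
      have := hn h hh
      have := hn h' hh'
      omega
    rcases F_cases H (2 * (n : ℤ) + h) hpos with h' | h'
    · exfalso
      have e : (((2 * (n : ℤ) + h).toNat : ℕ) : ℤ) = 2 * (n : ℤ) + h := by
        have := hn h hh
        omega
      have h3 : u H (2 * (n : ℤ) + h).toNat = 1 := by
        unfold u
        rw [e, if_pos h']
      have h4 : u H (2 * (n : ℤ) + h).toNat ≤ ∑ h ∈ H, u H (2 * (n : ℤ) + h).toNat :=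
        single_le_sum (f := fun h => u H (2 * (n : ℤ) + h).toNat)
          (fun h _ => u_nonneg H _) hh
      have := u_nonneg H n
      linarith
    · exact h'
  have h3 := key H hk n hn
  rw [h1, prod_congr rfl h2, prod_const, hk.neg_one_pow] at h3
  norm_num at h3

/-- the partial sums of `u / n` over a residue class modulo 2 -/
noncomputable def U (H : Finset ℤ) (N : ℕ) (r : Bool) : ℝ :=
  ∑ j ∈ (Icc 1 N).filter (fun j : ℕ => decide (Even j) = r), u H j / j

lemma U_add (H : Finset ℤ) (N : ℕ) :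
    U H N true + U H N false = ∑ j ∈ Icc 1 N, u H j / j := by
  unfold U
  rw [← sum_filter_add_sum_filter_not (Icc 1 N) (fun j : ℕ => decide (Even j) = true)]
  congr 1
  apply sum_congr _ fun _ _ => rfl
  ext j
  simp

lemma U_nonneg (H : Finset ℤ) (N : ℕ) (r : Bool) : 0 ≤ U H N r :=
  sum_nonneg fun j _ => div_nonneg (u_nonneg H j) (Nat.cast_nonneg j)

lemma sum_inv_sq (N : ℕ) : ∑ n ∈ Icc 1 N, (1 : ℝ) / (n : ℝ) ^ 2 ≤ 2 := by
  have key : ∀ N : ℕ, 1 ≤ N → ∑ n ∈ Icc 1 N, (1 : ℝ) / (n : ℝ) ^ 2 ≤ 2 - 1 / N := by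
    intro N hN
    induction N, hN using Nat.le_induction with
    | base => norm_num
    | succ k hk ih =>
      rw [sum_Icc_succ_top (by omega)]
      have hk0 : (0 : ℝ) < k := by exact_mod_cast hk
      have h1 : (1 : ℝ) / ((k + 1 : ℕ) : ℝ) ^ 2 ≤ 1 / k - 1 / ((k + 1 : ℕ) : ℝ) := by
        push_cast
        rw [div_sub_div _ _ hk0.ne' (by positivity), div_le_div_iff₀ (by positivity) (by positivity)]
        nlinarith
      linarith
  rcases Nat.eq_zero_or_pos N with h | h
  · subst h; norm_num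
  · have h1 := key N h
    have h2 : (0 : ℝ) ≤ 1 / N := by positivity
    linarith

lemma sum_tail (N : ℕ) : ∑ j ∈ Ioc N (3 * N), (1 : ℝ) / j ≤ 2 := by
  rcases Nat.eq_zero_or_pos N with h | h
  · subst h; norm_num
  have hN : (0 : ℝ) < N := by exact_mod_cast h
  have h1 : ∑ j ∈ Ioc N (3 * N), (1 : ℝ) / j ≤ ∑ j ∈ Ioc N (3 * N), (1 : ℝ) / N := by
    apply sum_le_sum
    intro j hj
    rw [mem_Ioc] at hj
    have : (N : ℝ) ≤ j := by exact_mod_cast hj.1.le
    exact one_div_le_one_div_of_le hN this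
  rw [sum_const, Nat.card_Ioc, nsmul_eq_mul] at h1
  have h2 : ((3 * N - N : ℕ) : ℝ) = 2 * N := by
    have : 3 * N - N = 2 * N := by omega
    rw [this]; push_cast; ring
  rw [h2] at h1
  have h3 : 2 * (N : ℝ) * (1 / N) = 2 := by field_simp
  linarith

/-- the contribution of one shift -/
lemma shift_bound (H : Finset ℤ) (h : ℤ) (N0 N : ℕ) (hN0 : |h| < N0) :
    ∑ n ∈ Icc N0 N, u H (2 * (n : ℤ) + h).toNat / n ≤
      2 * U H N (decide (Even h)) + (4 + 2 * |(h : ℝ)|) := by
  have hh := abs_lt.1 hN0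
  -- first replace 1/n by 2/j
  have h1 : ∀ n ∈ Icc N0 N, u H (2 * (n : ℤ) + h).toNat / n ≤
      2 * (u H (2 * (n : ℤ) + h).toNat / ((2 * (n : ℤ) + h).toNat : ℝ)) +
        |(h : ℝ)| * (1 / (n : ℝ) ^ 2) := by
    intro n hn
    rw [mem_Icc] at hn
    have hnpos : 0 < n := by omega
    have hn0 : (0 : ℝ) < n := by exact_mod_cast hnpos
    set j : ℕ := (2 * (n : ℤ) + h).toNat with hj
    have hjz : (j : ℤ) = 2 * (n : ℤ) + h := by omega
    have hjr : (j : ℝ) = 2 * (n : ℝ) + h := by exact_mod_cast hjz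
    have hjn : (n : ℝ) ≤ j := by
      have : n ≤ j := by omega
      exact_mod_cast this
    have hj0 : (0 : ℝ) < j := lt_of_lt_of_le hn0 hjn
    have e : (1 : ℝ) / n - 2 / j ≤ |(h : ℝ)| * (1 / (n : ℝ) ^ 2) := by
      have e1 : (1 : ℝ) / n - 2 / j = h / (n * j) := by
        have hhr : (h : ℝ) = j - 2 * n := by linarith [hjr]
        rw [hhr]
        field_simp
      rw [e1]
      have e2 : (h : ℝ) / (n * j) ≤ |(h : ℝ)| / (n * j) :=
        div_le_div_of_nonneg_right (le_abs_self _) (by positivity)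
      have e3 : |(h : ℝ)| / (n * j) ≤ |(h : ℝ)| / (n * n) := by
        apply div_le_div_of_nonneg_left (abs_nonneg _) (by positivity)
        exact mul_le_mul_of_nonneg_left hjn hn0.le
      have e4 : |(h : ℝ)| / (n * n) = |(h : ℝ)| * (1 / (n : ℝ) ^ 2) := by
        rw [pow_two]; ring
      linarith
    have hu := u_nonneg H j
    have hu1 := u_le_one H j
    have e5 : u H j / n - 2 * (u H j / j) = u H j * (1 / n - 2 / j) := by ring
    have e6 : u H j * (1 / n - 2 / j) ≤ |(h : ℝ)| * (1 / (n : ℝ) ^ 2) := by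
      have e7 : 0 ≤ |(h : ℝ)| * (1 / (n : ℝ) ^ 2) := by positivity
      calc u H j * (1 / n - 2 / j) ≤ u H j * (|(h : ℝ)| * (1 / (n : ℝ) ^ 2)) :=
            mul_le_mul_of_nonneg_left e hu
        _ ≤ 1 * (|(h : ℝ)| * (1 / (n : ℝ) ^ 2)) := mul_le_mul_of_nonneg_right hu1 e7
        _ = _ := one_mul _
    linarith
  have h2 := sum_le_sum h1
  rw [sum_add_distrib, ← mul_sum, ← mul_sum] at h2
  have h3 : ∑ n ∈ Icc N0 N, (1 : ℝ) / (n : ℝ) ^ 2 ≤ 2 := by
    refine le_trans (sum_le_sum_of_subset_of_nonneg ?_ ?_) (sum_inv_sq N)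
    · intro n hn
      rw [mem_Icc] at hn ⊢
      omega
    · intro n _ _
      positivity
  -- injection
  have h4 : ∑ n ∈ Icc N0 N, u H (2 * (n : ℤ) + h).toNat / ((2 * (n : ℤ) + h).toNat : ℝ) ≤
      ∑ j ∈ (Icc 1 (3 * N)).filter (fun j : ℕ => decide (Even j) = decide (Even h)),
        u H j / j := by
    have inj : Set.InjOn (fun n : ℕ => (2 * (n : ℤ) + h).toNat) (Icc N0 N : Finset ℕ) := by
      intro a ha b hb hab
      rw [coe_Icc, Set.mem_Icc] at ha hb
      simp only at hab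
      omega
    rw [← sum_image (f := fun j : ℕ => u H j / (j : ℝ)) inj]
    refine sum_le_sum_of_subset_of_nonneg ?_ ?_
    · intro j hj
      rw [mem_image] at hj
      obtain ⟨n, hn, rfl⟩ := hj
      rw [mem_Icc] at hn
      rw [mem_filter, mem_Icc]
      refine ⟨by omega, ?_⟩
      rw [decide_eq_decide]
      have hz : (((2 * (n : ℤ) + h).toNat : ℕ) : ℤ) = 2 * (n : ℤ) + h := by omega
      rw [← Int.even_coe_nat, hz, Int.even_add]
      simp
    · intro j _ _
      exact div_nonneg (u_nonneg H j) (Nat.cast_nonneg j)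
  have h5 : ∑ j ∈ (Icc 1 (3 * N)).filter (fun j : ℕ => decide (Even j) = decide (Even h)),
        u H j / j ≤ U H N (decide (Even h)) + 2 := by
    have hsub : (Icc 1 (3 * N)).filter (fun j : ℕ => decide (Even j) = decide (Even h)) ⊆
        (Icc 1 N).filter (fun j : ℕ => decide (Even j) = decide (Even h)) ∪ Ioc N (3 * N) := by
      intro j hj
      rw [mem_filter, mem_Icc] at hj
      rw [mem_union, mem_filter, mem_Icc, mem_Ioc]
      by_cases hjN : j ≤ N
      · exact Or.inl ⟨⟨hj.1.1, hjN⟩, hj.2⟩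
      · exact Or.inr ⟨by omega, hj.1.2⟩
    have hdisj : Disjoint ((Icc 1 N).filter (fun j : ℕ => decide (Even j) = decide (Even h)))
        (Ioc N (3 * N)) := by
      rw [disjoint_left]
      intro j hj hj2
      rw [mem_filter, mem_Icc] at hj
      rw [mem_Ioc] at hj2
      omega
    refine le_trans (sum_le_sum_of_subset_of_nonneg hsub ?_) ?_
    · intro j _ _
      exact div_nonneg (u_nonneg H j) (Nat.cast_nonneg j)
    · rw [sum_union hdisj]
      have : ∑ j ∈ Ioc N (3 * N), u H j / j ≤ ∑ j ∈ Ioc N (3 * N), (1 : ℝ) / j :=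
        sum_le_sum fun j _ => div_le_div_of_nonneg_right (u_le_one H j) (Nat.cast_nonneg j)
      have h6 := sum_tail N
      unfold U
      linarith
  have h7 := mul_le_mul_of_nonneg_left h3 (abs_nonneg (h : ℝ))
  linarith

/-- summing over the shifts -/
lemma sum_U (H : Finset ℤ) (N m : ℕ) (he : (H.filter fun h => Even h).card ≤ m)
    (ho : (H.filter fun h => ¬ Even h).card ≤ m) :
    ∑ h ∈ H, 2 * U H N (decide (Even h)) ≤ 2 * m * ∑ j ∈ Icc 1 N, u H j / j := by
  rw [← sum_filter_add_sum_filter_not H (fun h => Even h), ← U_add]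
  have h1 : ∑ h ∈ H.filter (fun h => Even h), 2 * U H N (decide (Even h)) =
      (H.filter (fun h => Even h)).card * (2 * U H N true) := by
    rw [← nsmul_eq_mul, ← sum_const]
    apply sum_congr rfl
    intro h hh
    rw [mem_filter] at hh
    simp [hh.2]
  have h2 : ∑ h ∈ H.filter (fun h => ¬ Even h), 2 * U H N (decide (Even h)) =
      (H.filter (fun h => ¬ Even h)).card * (2 * U H N false) := by
    rw [← nsmul_eq_mul, ← sum_const]
    apply sum_congr rfl
    intro h hh
    rw [mem_filter] at hh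
    rw [decide_eq_false hh.2]
  rw [h1, h2]
  have h3 := U_nonneg H N true
  have h4 := U_nonneg H N false
  have h5 : ((H.filter (fun h => Even h)).card : ℝ) ≤ m := by exact_mod_cast he
  have h6 : ((H.filter (fun h => ¬ Even h)).card : ℝ) ≤ m := by exact_mod_cast ho
  have h7 := mul_le_mul_of_nonneg_right h5 (by linarith : 0 ≤ 2 * U H N true)
  have h8 := mul_le_mul_of_nonneg_right h6 (by linarith : 0 ≤ 2 * U H N false)
  linarith

/-- **Theorem.** -/
theorem result (H : Finset ℤ) (hk : Even H.card) (m : ℕ)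
    (he : (H.filter fun h => Even h).card ≤ m) (ho : (H.filter fun h => ¬ Even h).card ≤ m) :
    ∃ K : ℝ, ∀ X : ℝ, 2 ≤ X → -((2 * m - 1) / (2 * m + 1) : ℝ) - K / Real.log X ≤ corr H X := by
  obtain ⟨N0, hN0, hN1⟩ : ∃ N0 : ℕ, (∀ h ∈ H, |h| < N0) ∧ 1 ≤ N0 := by
    refine ⟨(∑ h ∈ H, |h|).toNat + 1, fun h hh => ?_, by omega⟩
    have : |h| ≤ ∑ h ∈ H, |h| := single_le_sum (f := fun h => |h|) (fun h _ => abs_nonneg h) hh
    have := abs_nonneg h
    omega
  set K1 : ℝ := ∑ h ∈ H, (4 + 2 * |(h : ℝ)|) with hK1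
  have hK1nn : 0 ≤ K1 := sum_nonneg fun h _ => by positivity
  refine ⟨2 * (N0 + K1) + 2 * N0, fun X hX => ?_⟩
  set N := ⌊X⌋₊ with hN
  set Lg : ℝ := ∑ n ∈ Icc 1 N, (1 : ℝ) / n with hLg
  set V : ℝ := ∑ j ∈ Icc 1 N, u H j / j with hV
  have hlog : Real.log X ≤ Lg := by
    have := log_le_harmonic_floor X (by linarith)
    refine this.trans (le_of_eq ?_)
    rw [hLg, harmonic_eq_sum_Icc]
    push_cast
    simp [hN]
  have hlog0 : 0 < Real.log X := Real.log_pos (by linarith)
  have hL0 : 0 < Lg := hlog0.trans_le hlog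
  -- the head
  have head : Lg ≤ N0 + ∑ n ∈ Icc N0 N, (1 : ℝ) / n := by
    have hsub : Icc 1 N ⊆ Icc 1 N0 ∪ Icc N0 N := by
      intro n hn
      rw [mem_Icc] at hn
      rw [mem_union, mem_Icc, mem_Icc]
      omega
    have h1 : Lg ≤ ∑ n ∈ Icc 1 N0 ∪ Icc N0 N, (1 : ℝ) / n :=
      sum_le_sum_of_subset_of_nonneg hsub fun n _ _ => by positivity
    have h2 : ∑ n ∈ Icc 1 N0 ∪ Icc N0 N, (1 : ℝ) / n ≤
        ∑ n ∈ Icc 1 N0, (1 : ℝ) / n + ∑ n ∈ Icc N0 N, (1 : ℝ) / n := by
      rw [← sum_union_inter]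
      have : 0 ≤ ∑ n ∈ Icc 1 N0 ∩ Icc N0 N, (1 : ℝ) / n := sum_nonneg fun n _ => by positivity
      linarith
    have h3 : ∑ n ∈ Icc 1 N0, (1 : ℝ) / n ≤ N0 := by
      have : ∑ n ∈ Icc 1 N0, (1 : ℝ) / n ≤ ∑ n ∈ Icc 1 N0, (1 : ℝ) := by
        apply sum_le_sum
        intro n hn
        rw [mem_Icc] at hn
        have h4 : (1 : ℝ) ≤ n := by exact_mod_cast hn.1
        rw [div_le_one (by linarith)]
        exact h4
      simpa using this
    linarith
  have pos_of : ∀ n ∈ Icc N0 N, ∀ h ∈ H, 0 < (n : ℤ) + h := by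
    intro n hn h hh
    rw [mem_Icc] at hn
    have := abs_lt.1 (hN0 h hh)
    omega
  have main : ∑ n ∈ Icc N0 N, (1 : ℝ) / n ≤ V + (2 * m * V + K1) := by
    have h1 : ∑ n ∈ Icc N0 N, (1 : ℝ) / n ≤
        ∑ n ∈ Icc N0 N, (u H n / n + ∑ h ∈ H, u H (2 * (n : ℤ) + h).toNat / n) := by
      apply sum_le_sum
      intro n hn
      have h2 := cover H hk n (pos_of n hn)
      rw [← sum_div, ← add_div]
      exact div_le_div_of_nonneg_right h2 (Nat.cast_nonneg n)
    rw [sum_add_distrib, sum_comm] at h1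
    have h2 : ∑ n ∈ Icc N0 N, u H n / n ≤ V := by
      apply sum_le_sum_of_subset_of_nonneg
      · intro n hn
        rw [mem_Icc] at hn ⊢
        omega
      · intro n _ _
        exact div_nonneg (u_nonneg H n) (Nat.cast_nonneg n)
    have h3 : ∑ h ∈ H, ∑ n ∈ Icc N0 N, u H (2 * (n : ℤ) + h).toNat / n ≤
        ∑ h ∈ H, (2 * U H N (decide (Even h)) + (4 + 2 * |(h : ℝ)|)) :=
      sum_le_sum fun h hh => shift_bound H h N0 N (hN0 h hh)
    rw [sum_add_distrib] at h3
    have h4 := sum_U H N m he ho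
    linarith
  -- the correlation
  have num : 2 * V - Lg - 2 * N0 ≤ ∑ n ∈ Icc 1 N, (∏ h ∈ H, liou ((n : ℤ) + h)) / n := by
    have h1 : ∀ n ∈ Icc 1 N, 2 * (u H n / n) - 1 / n - (if n < N0 then 2 else 0) ≤
        (∏ h ∈ H, liou ((n : ℤ) + h)) / n := by
      intro n hn
      rw [mem_Icc] at hn
      have hn0 : (1 : ℝ) ≤ n := by exact_mod_cast hn.1
      by_cases hlt : n < N0
      · rw [if_pos hlt]
        have hb : |∏ h ∈ H, liou ((n : ℤ) + h)| ≤ 1 := by
          rw [abs_prod]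
          apply prod_le_one
          · intro h _; exact abs_nonneg _
          · intro h _
            unfold liou
            split_ifs
            · simp
            · rw [abs_pow]; simp
        have hb1 := (abs_le.1 hb).1
        have h2 : -1 / (n : ℝ) ≤ (∏ h ∈ H, liou ((n : ℤ) + h)) / n :=
          div_le_div_of_nonneg_right hb1 (by linarith)
        have h3 : u H n / n ≤ 1 / n := div_le_div_of_nonneg_right (u_le_one H n) (by linarith)
        have h4 : (1 : ℝ) / n ≤ 1 := by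
          rw [div_le_one (by linarith)]; exact hn0
        have h5 : -1 / (n : ℝ) = - (1 / n) := by ring
        linarith
      · rw [if_neg hlt]
        have hp := pos_of n (by rw [mem_Icc]; omega)
        have h2 : (∏ h ∈ H, liou ((n : ℤ) + h)) = 2 * u H n - 1 := by
          have h3 : F H n = ∏ h ∈ H, liou ((n : ℤ) + h) := rfl
          rw [← h3]
          rcases F_cases H n hp with h | h
          · unfold u; rw [if_pos h, h]; norm_num
          · unfold u
            rw [if_neg (by rw [h]; norm_num), h]; norm_num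
        rw [h2]
        apply le_of_eq
        ring
    have h2 := sum_le_sum h1
    rw [sum_sub_distrib, sum_sub_distrib, ← mul_sum] at h2
    have h3 : ∑ n ∈ Icc 1 N, (if n < N0 then (2 : ℝ) else 0) ≤ 2 * N0 := by
      rw [← sum_filter, sum_const, nsmul_eq_mul]
      have : ((Icc 1 N).filter (fun n => n < N0)).card ≤ N0 := by
        have hsub : (Icc 1 N).filter (fun n => n < N0) ⊆ range N0 := by
          intro n hn
          rw [mem_filter] at hn
          rw [mem_range]
          exact hn.2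
        simpa using card_le_card hsub
      have : (((Icc 1 N).filter (fun n => n < N0)).card : ℝ) ≤ N0 := by exact_mod_cast this
      linarith
    linarith
  have hm : (0 : ℝ) < 2 * m + 1 := by positivity
  have hVlow : (Lg - (N0 + K1)) / (2 * m + 1) ≤ V := by
    rw [div_le_iff₀ hm]
    nlinarith
  have hfin : corr H X = (∑ n ∈ Icc 1 N, (∏ h ∈ H, liou ((n : ℤ) + h)) / n) / Lg := rfl
  rw [hfin, le_div_iff₀ hL0]
  refine le_trans ?_ num
  set T : ℝ := N0 + K1 with hT
  have hT0 : 0 ≤ T := by positivity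
  have e1 : (-((2 * m - 1) / (2 * m + 1) : ℝ)) = 2 / (2 * m + 1) - 1 := by
    field_simp
    ring
  rw [e1]
  have e2 : (2 * T + 2 * N0) ≤ (2 * T + 2 * N0) / Real.log X * Lg := by
    rw [div_mul_eq_mul_div, le_div_iff₀ hlog0]
    exact mul_le_mul_of_nonneg_left hlog (by positivity)
  have e3 : 2 / (2 * (m : ℝ) + 1) * Lg - 2 * T ≤ 2 * V := by
    have e4 : (Lg - T) / (2 * m + 1) = Lg / (2 * m + 1) - T / (2 * m + 1) := sub_div _ _ _
    have e5 : T / (2 * (m : ℝ) + 1) ≤ T := div_le_self hT0 (by linarith [(Nat.cast_nonneg m : (0:ℝ) ≤ m)])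
    have e6 : 2 / (2 * (m : ℝ) + 1) * Lg = 2 * (Lg / (2 * m + 1)) := by ring
    linarith
  linarith

end Pool.Agent.Results.MP_78b682_nt.EvenOrderLowerBound
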