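import Pool.Agent.Lib.TU2.HFin

/-!
MP_78b682_nt: logarithmically averaged correlations of the Liouville function in which `r` blocks (arithmetic progressions of arbitrary
lengths `q i` with fixed differences `d * a i`) have free positions `d * h i`, the other shifts `T` being arbitrary and fixed. For every
`l ≥ 1` the average over the positions of the `l`-th power is at most `kap r + ε` in absolute value, with `kap 1 = 1/2`, `kap 2 = 1/3` and
`kap r = 4 / (3 (r + 1))` for `r ≥ 3`. The required lengths of the averages do not depend on `T`.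
-/

set_option autoImplicit false

open Finset

namespace Pool.Agent.Results.MP_78b682_nt.FreeBlocks

open Pool.Agent.Lib.MP_78b682_nt (liou logAvg)
open Pool.Agent.Lib.TU2 (kap)

theorem result (r l d : ℕ) (q a : Fin r → ℕ) (hr : 0 < r) (hl : 0 < l) (hd : 0 < d) (hq : ∀ i, 0 < q i) (ha : ∀ i, 0 < a i)
    (ε : ℝ) (hε : 0 < ε) :
    ∃ N0 : ℕ, ∀ N : Fin r → ℕ, (∀ i, N0 ≤ N i) → ∀ (m : ℕ) (T : Fin m → ℤ), ∃ X0 : ℝ, ∀ X : ℝ, X0 ≤ X →
      |∑ h ∈ Fintype.piFinset (fun i => Icc 1 (N i)), (logAvg X (fun n => (∏ j, liou (n + T j)) *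
        ∏ i, ∏ j ∈ range (q i), liou (n + d * h i + d * (a i * j)))) ^ l| ≤ (kap r + ε) * ∏ i, (N i : ℝ) :=
  Pool.Agent.Lib.TU2.fin_free r l d q a hr hl hd hq ha ε hε

end Pool.Agent.Results.MP_78b682_nt.FreeBlocks
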