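import Pool.Agent.Lib.MP_78b682_nt.Defs
import Pool.Agent.Lib.TU.Lim

/-!
MP_78b682_nt: the logarithmically averaged correlations of the Liouville function of order `k` stay below `1 - c_k` in absolute value,
`c_k > 0` depends on `k` only; the same for all systems of `k` pairwise non-proportional linear forms.
-/

set_option autoImplicit false

open Finset

namespace Pool.Agent.Results.MP_78b682_nt.UniformGap

open Pool.Agent.Lib.MP_78b682_nt (liou logAvg corr)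
open Pool.Agent.Lib.TU

theorem liou_bd (n : ℤ) : |liou n| ≤ 1 := by
  unfold liou
  split_ifs <;> simp

theorem liou_eq_lam {n : ℤ} (hn : 0 < n) : liou n = lam n := by
  unfold liou lam
  have h1 : n.natAbs ≠ 0 := by omega
  have h2 : n.toNat = n.natAbs := by omega
  rw [if_neg (by omega), h2, ArithmeticFunction.liouville_apply h1]
  push_cast
  rfl

theorem prod_bd {k : ℕ} (f : Fin k → ℤ → ℝ) (hf : ∀ i n, |f i n| ≤ 1) (n : ℤ) : |∏ i, f i n| ≤ 1 := by
  rw [Finset.abs_prod]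
  exact prod_le_one (fun i _ => abs_nonneg _) (fun i _ => hf i n)

/-- the two versions of the Liouville function have the same mean -/
theorem mean_eq {L : (ℤ → ℝ) →ₗ[ℝ] ℝ} (hL : IsMean L) {k : ℕ} (a b : Fin k → ℤ) (ha : ∀ i, 0 < a i) :
    L (fun n => ∏ i, liou (a i * n + b i)) = L (fun n => ∏ i, lam (a i * n + b i)) := by
  have hb1 : Bd (fun n : ℤ => ∏ i, liou (a i * n + b i)) :=
    ⟨1, fun n => prod_bd (fun i n => liou (a i * n + b i)) (fun i n => liou_bd _) n⟩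
  have hb2 : Bd (fun n : ℤ => ∏ i, lam (a i * n + b i)) :=
    ⟨1, fun n => prod_bd (fun i n => lam (a i * n + b i)) (fun i n => lam_abs_le _) n⟩
  have h1 : L (fun n => |∏ i, liou (a i * n + b i) - ∏ i, lam (a i * n + b i)|) ≤ 2 * 0 := by
    refine hL.dyad _ 0 (∑ i, |b i|).toNat (hb1.sub hb2).abs (fun n => abs_nonneg _) fun X hX => ?_
    rw [zero_mul]
    refine le_of_eq (sum_eq_zero fun n hn => ?_)
    have hn1 := (mem_Ioc.1 hn).1
    rw [abs_eq_zero, sub_eq_zero]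
    refine prod_congr rfl fun i _ => liou_eq_lam ?_
    have h2 : |b i| ≤ ∑ i, |b i| := single_le_sum (f := fun i => |b i|) (fun i _ => abs_nonneg _) (mem_univ i)
    have h3 : -|b i| ≤ b i := neg_abs_le _
    have h4 : (n : ℤ) ≤ a i * n := by nlinarith [ha i]
    have h5 : ∑ i, |b i| < (n : ℤ) := by omega
    linarith
  have h2 := hL.abs_le_abs (hb1.sub hb2)
  rw [L_sub] at h2
  have h3 : |L (fun n => ∏ i, liou (a i * n + b i)) - L (fun n => ∏ i, lam (a i * n + b i))| ≤ 0 := by linarith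
  exact sub_eq_zero.1 (abs_eq_zero.1 (le_antisymm h3 (abs_nonneg _)))

theorem forms {L : (ℤ → ℝ) →ₗ[ℝ] ℝ} {k : ℕ} {c : ℝ}
    (hc : ∀ (A : ℕ) (h : Fin k → ℤ), 0 < A → Function.Injective h → |L (fun m => ∏ i, lam (A * m + h i))| ≤ 1 - c)
    (a b : Fin k → ℤ) (ha : ∀ i, 0 < a i) (hab : ∀ i j, i ≠ j → a i * b j ≠ a j * b i) :
    |L (fun n => ∏ i, lam (a i * n + b i))| ≤ 1 - c := by
  classical
  set e : Fin k → ℤ := fun i => ∏ j ∈ univ.erase i, a j with he
  have hA0 : 0 < ∏ j, a j := prod_pos fun j _ => ha j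
  have hae : ∀ i, a i * e i = ∏ j, a j := fun i => mul_prod_erase univ a (mem_univ i)
  have he0 : ∀ i, 0 < e i := fun i => prod_pos fun j _ => ha j
  have h1 := hc (∏ j, a j).toNat (fun i => e i * b i) (by omega) (fun i j hij => by
    by_contra hne
    apply hab i j hne
    have hij' : e i * b i = e j * b j := hij
    have h3 : (a i * a j) * (e i * b i) = (∏ l, a l) * (a j * b i) := by rw [← hae i]; ring
    have h4 : (a i * a j) * (e j * b j) = (∏ l, a l) * (a i * b j) := by rw [← hae j]; ring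
    rw [hij', h4] at h3
    exact mul_left_cancel₀ hA0.ne' h3)
  have h2 : (fun m : ℤ => ∏ i, lam (((∏ j, a j).toNat : ℕ) * m + e i * b i)) =
      fun m => (∏ i, lam (e i)) * ∏ i, lam (a i * m + b i) := by
    ext m
    rw [← prod_mul_distrib]
    refine prod_congr rfl fun i _ => ?_
    rw [← lam_mul, Int.toNat_of_nonneg hA0.le, ← hae i]
    congr 1
    ring
  rw [h2, L_mul, abs_mul] at h1
  have h3 : |∏ i, lam (e i)| = 1 := by
    rw [Finset.abs_prod]
    refine prod_eq_one fun i _ => ?_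
    rcases lam_cases (he0 i).ne' with h | h <;> rw [h] <;> norm_num
  rwa [h3, one_mul] at h1

theorem logAvg_eq (X : ℝ) (f : ℤ → ℝ) : logAvg X (fun n => f (n : ℤ)) = lav ⌊X⌋₊ f := rfl

theorem gap_forms {k : ℕ} {c : ℝ} (hc0 : 0 < c)
    (hc : ∀ L : (ℤ → ℝ) →ₗ[ℝ] ℝ, IsMean L → ∀ (A : ℕ) (h : Fin k → ℤ), 0 < A → Function.Injective h →
      |L (fun m => ∏ i, lam (A * m + h i))| ≤ 1 - c)
    (a b : Fin k → ℤ) (ha : ∀ i, 0 < a i) (hab : ∀ i j, i ≠ j → a i * b j ≠ a j * b i) :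
    ∃ X₀ : ℝ, ∀ X : ℝ, X₀ ≤ X → |logAvg X (fun n => ∏ i, liou (a i * n + b i))| ≤ 1 - c / 2 := by
  have hb1 : Bd (fun n : ℤ => ∏ i, liou (a i * n + b i)) :=
    ⟨1, fun n => prod_bd (fun i n => liou (a i * n + b i)) (fun i n => liou_bd _) n⟩
  have key : ∀ L : (ℤ → ℝ) →ₗ[ℝ] ℝ, IsMean L → |L (fun n => ∏ i, liou (a i * n + b i))| ≤ 1 - c := by
    intro L hL
    rw [mean_eq hL a b ha]
    exact forms (hc L hL) a b ha hab
  obtain ⟨X1, h1⟩ := lim_of_means (fun n : ℤ => ∏ i, liou (a i * n + b i)) hb1 (-(1 - c / 2)) (-(1 - c)) (by linarith)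
    (fun L hL => (abs_le.1 (key L hL)).1)
  obtain ⟨X2, h2⟩ := lim_of_means (fun n : ℤ => -∏ i, liou (a i * n + b i)) (by simpa using (Bd.const 0).sub hb1)
    (-(1 - c / 2)) (-(1 - c)) (by linarith)
    (fun L hL => by rw [L_neg]; exact neg_le_neg (abs_le.1 (key L hL)).2)
  refine ⟨max X1 X2, fun X hX => ?_⟩
  have hX1 : X1 ≤ ⌊X⌋₊ := Nat.le_floor ((le_max_left _ _).trans hX)
  have hX2 : X2 ≤ ⌊X⌋₊ := Nat.le_floor ((le_max_right _ _).trans hX)
  have e1 : logAvg X (fun n => ∏ i, liou (a i * n + b i)) = lav ⌊X⌋₊ (fun n : ℤ => ∏ i, liou (a i * n + b i)) := rfl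
  have e2 : lav ⌊X⌋₊ (fun n : ℤ => -∏ i, liou (a i * n + b i)) = -lav ⌊X⌋₊ (fun n : ℤ => ∏ i, liou (a i * n + b i)) := by
    unfold lav
    rw [← neg_div, ← sum_neg_distrib]
    congr 1
    exact sum_congr rfl fun n _ => neg_div _ _
  have h3 := h1 _ hX1
  have h4 := h2 _ hX2
  rw [e2] at h4
  rw [e1, abs_le]
  constructor <;> linarith

theorem result (k : ℕ) (hk : 1 ≤ k) : ∃ c : ℝ, 0 < c ∧
    (∀ H : Finset ℤ, H.card = k → ∃ X₀ : ℝ, ∀ X : ℝ, X₀ ≤ X → |corr H X| ≤ 1 - c) ∧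
    ∀ a b : Fin k → ℤ, (∀ i, 0 < a i) → (∀ i j, i ≠ j → a i * b j ≠ a j * b i) →
      ∃ X₀ : ℝ, ∀ X : ℝ, X₀ ≤ X → |logAvg X (fun n => ∏ i, liou (a i * n + b i))| ≤ 1 - c := by
  obtain ⟨c, hc0, hc⟩ := gap k hk
  refine ⟨c / 2, by linarith, fun H hH => ?_, fun a b ha hab => gap_forms hc0 hc a b ha hab⟩
  have hk' : Fintype.card H = k := by simpa using hH
  let φ : Fin k ≃ H := (Fintype.equivFinOfCardEq hk').symm
  obtain ⟨X₀, h⟩ := gap_forms hc0 hc (fun _ => 1) (fun i => (φ i : ℤ)) (fun _ => one_pos) (fun i j hij => by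
    rw [one_mul, one_mul]
    intro h
    exact hij (φ.injective (Subtype.ext h.symm)))
  refine ⟨X₀, fun X hX => ?_⟩
  have e1 : corr H X = logAvg X (fun n => ∏ i : Fin k, liou (1 * (n : ℤ) + (φ i : ℤ))) := by
    unfold corr
    congr 1
    ext n
    rw [← prod_coe_sort H (fun h => liou ((n : ℤ) + h))]
    rw [← φ.prod_comp]
    exact prod_congr rfl fun i _ => by rw [one_mul]
  rw [e1]
  exact h X hX

end Pool.Agent.Results.MP_78b682_nt.UniformGap
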